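import Pool.Agent.V11273.GH.A2

/-!
# The period conjecture in bounded degree, at all heights, for almost all fibres of families with any monodromy groups,
# over all number fields of bounded degree at once

Let `h_i`, `1 ≤ i ≤ k`, be families of G-functions over `ℚ` (with the conditions of Siegel and Galochkin, regular singular
with rational exponents at `0`) and let `P_i(x)` be square matrices whose entries are polynomials with arbitrary complex
coefficients in `log x` and in the functions `h_{i,l}(x)`: the period matrices (rows: Betti, columns: de Rham) of the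
cohomology (pure or mixed) of families of varieties over an open part of the line, near any rational point, which may be a
point of degeneration. Let `Gal(P_i)` be the group of the matrices `g` such that `P_i` and `g P_i` satisfy the same
polynomial relations over `ℂ(x)`: if `P_i` is a fundamental matrix of the Gauss-Manin system this is its differential
Galois group, the Zariski closure of the monodromy group. Let `M_0` be any object over a number field, for example the
motive of a fixed variety, with period matrix `C₀`, and let `c = C₀ ⊕ ⨁_i P_i(1 / t_i)` be the period matrix of the sum of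
`M_0` and of the fibres at `x_i = 1 / t_i`.

**Theorem.** Let `D` be a natural number. For almost all tuples of integers `t` (all but
`C N^(k-1) ∑_i (1 + N / (x_i + N)^c)` of the tuples in the box `∏_i (x_i, x_i + N]`) the following holds for all number
fields `K` of degree at most `D` at once: every polynomial of degree at most `D` with coefficients in `K` (of any height)
which vanishes at `c` vanishes at `C₀ ⊕ ⨁_i g_i P_i(1 / t_i)` for all `g_i` in the identity component of `Gal(P_i)`.
Moreover there are functions `D(N) → ∞` and `δ(N) → 0` such that this holds with `D = D(N)` for all but `δ(N) N^k` of the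
tuples `t` in `[1, N]^k`.

So every closed subset of `GL` which contains the period point and is defined by equations of degree at most `D` over a number
field of degree at most `D` contains the orbit of `1 × ∏_i Gal(P_i)°`, and all subtorsors of this kind are stable under this
group: this is the torsor form of the conjecture, relative to `M_0`, in bounded degree. In particular the transcendence degree
of the periods over those of `M_0` cannot be smaller than `∑_i dim Gal(P_i)` because of a relation of bounded degree. The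
identity component is the largest group for which this can be true for all number fields at once: for a finite Galois group
the periods are algebraic numbers of bounded degree.

The theorem BigMonodromyTorsors of the starting files treats subtorsors only (defined by equations of any degree), and shows
that they are stable under the commutator group of the subgroup generated by the unipotent elements of `Gal(P_i)`. It says
nothing on relations which do not define a subtorsor, and so nothing on the dimension of the Zariski closure of the period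
point, and the commutator group is smaller than the identity component for mixed motives (logarithms, Kummer extensions,
abelian integrals). Here all relations of bounded degree are treated, and the whole identity component.

Proof. A theorem of helper120 (`Pool.Agent.Y120.R.gx`) gives that, outside of the exceptional set, all relations of
degree at most `d` over `ℚ` of the period matrix `c` are satisfied by `g c` for `g ∈ 1 × ∏_i Gal(P_i)`. (Descent on
irreducible sets, `Pool/Agent/V11273/GH`) Let `K` be a Galois extension of `ℚ` of degree `D'`, `I` the space of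
relations of `c` of degree `≤ e` over `K`. The norm of `P ∈ I` vanishes at `g c`. The orbit of the identity component is
irreducible (this is proved here from the minimal closed subgroup of finite index), so for some automorphism `σ` of `K`,
`σ(P)` vanishes on it, and as a vector space over `ℚ` is not a finite union of proper subspaces there is one `σ` for all
`P ∈ I`. So `σ(I) = I` and all `P ∈ I` vanish on the orbit.
-/

set_option autoImplicit false

open PowerSeries Filter
open scoped commutatorElement Matrix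

namespace Pool.Agent.Results.MP_caab05_ag.AllMonodromyGroups

/-- an integer polynomial as a power series with rational coefficients -/
noncomputable def toQ (P : Polynomial ℤ) : PowerSeries ℚ := ((P.map (Int.castRingHom ℚ) : Polynomial ℚ) : PowerSeries ℚ)

/-- the power series `P(u^e)` -/
noncomputable def atPow (e : ℕ) (P : Polynomial ℤ) : PowerSeries ℂ :=
  ((Polynomial.expand ℂ e (P.map (Int.castRingHom ℂ)) : Polynomial ℂ) : PowerSeries ℂ)

/-- the matrices `G_s` over `ℤ[x]` with `T^s y^(s) = G_s y` for all solutions `y` of `T y' = A y` -/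
noncomputable def iter {r : ℕ} (T : Polynomial ℤ) (A : Fin r → Fin r → Polynomial ℤ) : ℕ → Fin r → Fin r → Polynomial ℤ
  | 0 => fun i j => if i = j then 1 else 0
  | s + 1 => fun i j => T * Polynomial.derivative (iter T A s i j) + ∑ l, iter T A s i l * A l j -
      (s : Polynomial ℤ) * (Polynomial.derivative T * iter T A s i j)

/-- The system `T y' = A y` has a fundamental matrix of solutions of the form `u^(-M) ∑_n Φ_n(u) (log u)^n` with
`u^e = x` and convergent power series `Φ_n`: the point `0` is regular or a regular singularity with rational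
exponents. -/
def QuasiUnipotent {r : ℕ} (T : Polynomial ℤ) (A : Fin r → Fin r → Polynomial ℤ) : Prop :=
  ∃ (e M : ℕ) (K : ℝ) (Φ : Matrix (Fin r) (Fin r) (Polynomial (PowerSeries ℂ))), 1 ≤ e ∧ Φ.det ≠ 0 ∧
    (∀ i j n m, ‖coeff m ((Φ i j).coeff n)‖ ≤ K ^ (m + 1)) ∧
    ∀ i j n, atPow e T * (X * PowerSeries.derivative ℂ ((Φ i j).coeff n) +
        ((n : PowerSeries ℂ) + 1) * (Φ i j).coeff (n + 1) - (M : PowerSeries ℂ) * (Φ i j).coeff n) =
      (e : PowerSeries ℂ) * X ^ e * ∑ l, atPow e (A i l) * (Φ l j).coeff n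

/-- `h_1, ..., h_r` are G-functions with rational coefficients which solve the differential system `T y' = A y`, with
the conditions of Siegel and Galochkin, and `0` is a regular point or a regular singularity with rational exponents of
the system. -/
structure GFamily {r : ℕ} (T : Polynomial ℤ) (A : Fin r → Fin r → Polynomial ℤ) (h : Fin r → PowerSeries ℚ) : Prop where
  /-- the denominator is not zero -/
  T_ne : T ≠ 0
  /-- the differential equations -/
  ode : ∀ i, toQ T * PowerSeries.derivative ℚ (h i) = ∑ j, toQ (A i j) * h j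
  /-- the coefficients have geometric growth -/
  size : ∃ C : ℝ, ∀ i m, |((coeff m (h i) : ℚ) : ℝ)| ≤ C ^ (m + 1)
  /-- the common denominators of the coefficients have geometric growth -/
  den : ∃ C : ℝ, ∀ m : ℕ, ∃ d : ℕ, 0 < d ∧ (d : ℝ) ≤ C ^ (m + 1) ∧ ∀ i, ∀ j ≤ m, ∃ a : ℤ, (d : ℚ) * coeff j (h i) = a
  /-- Galochkin's condition: the common denominators of the matrices `G_s / s!` have geometric growth -/
  galochkin : ∃ C : ℝ, ∀ m : ℕ, ∃ d : ℕ, 0 < d ∧ (d : ℝ) ≤ C ^ (m + 1) ∧ ∀ s ≤ m, ∀ i j,
    ∃ H : Polynomial ℤ, (d : Polynomial ℤ) * iter T A s i j = (s.factorial : Polynomial ℤ) * H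
  /-- the local exponents at `0` are rational and the singularity is regular -/
  regular : QuasiUnipotent T A

theorem iter_eq {r : ℕ} (T : Polynomial ℤ) (A : Fin r → Fin r → Polynomial ℤ) (s : ℕ) :
    iter T A s = Pool.Agent.Y120.GH.itm T A s := by
  induction s with
  | zero => rfl
  | succ s ih =>
    funext i j
    rw [iter, Pool.Agent.Y120.GH.itm, ih]

theorem qu_eq {r : ℕ} {T : Polynomial ℤ} {A : Fin r → Fin r → Polynomial ℤ} (h : QuasiUnipotent T A) :
    Pool.Agent.Y120.GH.QU0 T A := by
  obtain ⟨e, M, K, Φ, he, hdet, hc, heq⟩ := h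
  have he0 : e ≠ 0 := by omega
  refine ⟨e, he0, M, K, Φ, hc, fun i j n => ?_, hdet⟩
  have h1 := heq i j n
  simp only [atPow] at h1
  rw [Pool.Agent.Y120.GH.expand_poly he0]
  simp only [Pool.Agent.Y120.GH.expand_poly he0]
  exact h1

theorem fam {r : ℕ} {T : Polynomial ℤ} {A : Fin r → Fin r → Polynomial ℤ} {h : Fin r → PowerSeries ℚ}
    (hG : GFamily T A h) (δ : ℕ) : Pool.Agent.Y120.R.Fam δ h :=
  ⟨hG.size, Pool.Agent.Y120.GH.family_main hG.T_ne hG.ode hG.size hG.den (by
    obtain ⟨C, hC⟩ := hG.galochkin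
    refine ⟨C, fun m => ?_⟩
    obtain ⟨d, h1, h2, h3⟩ := hC m
    refine ⟨d, h1, h2, fun s hs i' j' => ?_⟩
    rw [← iter_eq]
    exact h3 s hs i' j') (qu_eq hG.regular) δ⟩

section family
variable {r n : ℕ}

/-- The period matrix at `x = 1 / s`: the entries are the polynomials `P a b` in `log s` and in the `h_l(1 / s)`. -/
noncomputable def perMat (h : Fin r → PowerSeries ℚ) (P : Fin n → Fin n → MvPolynomial (Option (Fin r)) ℂ) (s : ℝ) :
    Matrix (Fin n) (Fin n) ℂ :=
  Matrix.of fun a b => MvPolynomial.aeval (fun o : Option (Fin r) => o.elim ((Real.log s : ℝ) : ℂ)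
    fun l => ((∑' m : ℕ, ((coeff m (h l) : ℚ) : ℝ) * (1 / s) ^ m : ℝ) : ℂ)) (P a b)

/-- the value at `x = 1 / s` and at the matrix `Z` of a polynomial in the entries of a matrix over `ℂ[x]` -/
noncomputable def relAt (R : MvPolynomial (Fin n × Fin n) (Polynomial ℂ)) (s : ℝ) (Z : Matrix (Fin n) (Fin n) ℂ) : ℂ :=
  MvPolynomial.eval₂ (Polynomial.evalRingHom (1 / (s : ℂ))) (fun v => Z v.1 v.2) R

/-- `g P(x)` satisfies all polynomial relations over `ℂ[x]` which `P(x)` satisfies. -/
def Preserves (h : Fin r → PowerSeries ℚ) (P : Fin n → Fin n → MvPolynomial (Option (Fin r)) ℂ)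
    (g : Matrix (Fin n) (Fin n) ℂ) : Prop :=
  ∀ R : MvPolynomial (Fin n × Fin n) (Polynomial ℂ), (∀ᶠ s : ℝ in Filter.atTop, relAt R s (perMat h P s) = 0) →
    ∀ᶠ s : ℝ in Filter.atTop, relAt R s (g * perMat h P s) = 0

/-- The group of the matrices `g` such that `g` and `g⁻¹` preserve the relations. If `P` is a fundamental matrix of a linear
differential system over `ℂ(x)` this is its differential Galois group. -/
noncomputable def Gal (h : Fin r → PowerSeries ℚ) (P : Fin n → Fin n → MvPolynomial (Option (Fin r)) ℂ) :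
    Subgroup (Matrix.GeneralLinearGroup (Fin n) ℂ) where
  carrier := {g | Preserves h P (g : Matrix (Fin n) (Fin n) ℂ) ∧
    Preserves h P ((g⁻¹ : Matrix.GeneralLinearGroup (Fin n) ℂ) : Matrix (Fin n) (Fin n) ℂ)}
  mul_mem' := fun hg hg' => (Pool.Agent.Y123.GN.Gs h P).mul_mem' hg hg'
  one_mem' := (Pool.Agent.Y123.GN.Gs h P).one_mem'
  inv_mem' := fun hg => (Pool.Agent.Y123.GN.Gs h P).inv_mem' hg

theorem gal_eq (h : Fin r → PowerSeries ℚ) (P : Fin n → Fin n → MvPolynomial (Option (Fin r)) ℂ) :
    Gal h P = Pool.Agent.Y123.GN.Gs h P := rfl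

/-- the subgroup `H` of `G` is defined by polynomial equations -/
def ClosedIn {G : Subgroup (Matrix.GeneralLinearGroup (Fin n) ℂ)} (H : Subgroup G) : Prop :=
  ∃ E : Set (MvPolynomial (Fin n × Fin n) ℂ), ∀ h : G, h ∈ H ↔
    ∀ e ∈ E, MvPolynomial.eval (fun v => ((h : Matrix.GeneralLinearGroup (Fin n) ℂ) : Matrix (Fin n) (Fin n) ℂ) v.1 v.2) e = 0

/-- the elements of `G` which lie in all closed subgroups of finite index of `G` -/
def identityComponent (G : Subgroup (Matrix.GeneralLinearGroup (Fin n) ℂ)) : Set (Matrix.GeneralLinearGroup (Fin n) ℂ) :=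
  {g | ∃ hg : g ∈ G, ∀ H : Subgroup G, H.FiniteIndex → ClosedIn H → (⟨g, hg⟩ : G) ∈ H}

end family

section
variable {k r : ℕ} {n : Fin k → ℕ} {ρ : Fin k → ℕ}

/-- the block matrix `x ⊕ X_1 ⊕ … ⊕ X_k` -/
noncomputable def total (x : Matrix (Fin r) (Fin r) ℂ) (X : ∀ i, Matrix (Fin (n i)) (Fin (n i)) ℂ) :
    Matrix (Fin r ⊕ Σ i, Fin (n i)) (Fin r ⊕ Σ i, Fin (n i)) ℂ :=
  Matrix.fromBlocks x 0 0 (Matrix.blockDiagonal' X)

/-- The conclusion for one tuple; `Z i` is the period matrix of the fibre of the `i`-th family: all relations of degree at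
most `D` over all number fields of degree at most `D` hold on the orbit of the identity components. -/
def Good (D : ℕ) (C₀ : Matrix (Fin r) (Fin r) ℂ) (h : ∀ i, Fin (ρ i) → PowerSeries ℚ)
    (P : ∀ i, Fin (n i) → Fin (n i) → MvPolynomial (Option (Fin (ρ i))) ℂ)
    (Z : ∀ i, Matrix (Fin (n i)) (Fin (n i)) ℂ) : Prop :=
  ∀ K : Subfield ℂ, FiniteDimensional ℚ K → Module.finrank ℚ K ≤ D →
  ∀ F : MvPolynomial ((Fin r ⊕ Σ i, Fin (n i)) × (Fin r ⊕ Σ i, Fin (n i))) ℂ,
    (∀ m, F.coeff m ∈ K) → F.totalDegree ≤ D → MvPolynomial.eval (fun b => total C₀ Z b.1 b.2) F = 0 →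
    ∀ g : ∀ i, Matrix.GeneralLinearGroup (Fin (n i)) ℂ, (∀ i, g i ∈ identityComponent (Gal (h i) (P i))) →
      MvPolynomial.eval (fun b => total C₀ (fun i => (g i : Matrix (Fin (n i)) (Fin (n i)) ℂ) * Z i) b.1 b.2) F = 0

theorem good_of {D : ℕ} {C₀ : Matrix (Fin r) (Fin r) ℂ} {h : ∀ i, Fin (ρ i) → PowerSeries ℚ}
    {P : ∀ i, Fin (n i) → Fin (n i) → MvPolynomial (Option (Fin (ρ i))) ℂ} {t : Fin k → ℕ}
    (hg : Pool.Agent.V11273.GH.GoodI D C₀ h P t) : Good D C₀ h P fun i => perMat (h i) (P i) (t i : ℝ) := by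
  intro K hKf hKD F hFK hFd hF0 g hgI
  have h1 := hg K hKf hKD g hgI F hFK hFd hF0
  have h2 := Pool.Agent.Y123.GN.EG_mul (1 : Matrix (Fin r) (Fin r) ℂ) C₀
    (fun i => (g i : Matrix (Fin (n i)) (Fin (n i)) ℂ)) (fun i => perMat (h i) (P i) (t i : ℝ))
  rw [Matrix.one_mul] at h2
  have h3 := congrArg (fun Z : Matrix (Fin r ⊕ Σ i, Fin (n i)) (Fin r ⊕ Σ i, Fin (n i)) ℂ =>
    MvPolynomial.eval (fun b => Z b.1 b.2) F) h2
  exact h3.symm.trans h1

end

/-- **The theorem.** -/
theorem result (k e r : ℕ) (ρ n : Fin k → ℕ) (T : Fin k → Polynomial ℤ)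
    (A : ∀ i, Fin (ρ i) → Fin (ρ i) → Polynomial ℤ) (h : ∀ i, Fin (ρ i) → PowerSeries ℚ)
    (hG : ∀ i, GFamily (T i) (A i) (h i)) :
    -- number fields of degree at most `D`
    (∀ D : ℕ, ∃ c C : ℝ, 0 < c ∧ 0 ≤ C ∧ ∀ P : ∀ i, Fin (n i) → Fin (n i) → MvPolynomial (Option (Fin (ρ i))) ℂ,
      (∀ i a b, (P i a b).totalDegree ≤ e) → ∀ C₀ : Matrix (Fin r) (Fin r) ℂ, ∀ (x : Fin k → ℕ) (N : ℕ), 1 ≤ N →
      (({t : Fin k → ℕ | (∀ i, x i < t i ∧ t i ≤ x i + N) ∧
        ¬ Good D C₀ h P fun i => perMat (h i) (P i) (t i : ℝ)}.ncard : ℕ) : ℝ) ≤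
        C * (N : ℝ) ^ (k - 1) * ∑ i, (1 + N / ((x i : ℝ) + N) ^ c)) ∧
    -- number fields of degree at most `D N`, which tends to infinity
    (∃ (D : ℕ → ℕ) (δ : ℕ → ℝ), Tendsto D atTop atTop ∧ Tendsto δ atTop (nhds 0) ∧
      ∀ P : ∀ i, Fin (n i) → Fin (n i) → MvPolynomial (Option (Fin (ρ i))) ℂ,
      (∀ i a b, (P i a b).totalDegree ≤ e) → ∀ C₀ : Matrix (Fin r) (Fin r) ℂ, ∀ N : ℕ, 1 ≤ N →
      (({t : Fin k → ℕ | (∀ i, 1 ≤ t i ∧ t i ≤ N) ∧
        ¬ Good (D N) C₀ h P fun i => perMat (h i) (P i) (t i : ℝ)}.ncard : ℕ) : ℝ) ≤ δ N * (N : ℝ) ^ k) := by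
  classical
  have hmain : ∀ D : ℕ, ∃ c C : ℝ, 0 < c ∧ 0 ≤ C ∧ ∀ P : ∀ i, Fin (n i) → Fin (n i) → MvPolynomial (Option (Fin (ρ i))) ℂ,
      (∀ i a b, (P i a b).totalDegree ≤ e) → ∀ C₀ : Matrix (Fin r) (Fin r) ℂ, ∀ (x : Fin k → ℕ) (N : ℕ), 1 ≤ N →
      (({t : Fin k → ℕ | (∀ i, x i < t i ∧ t i ≤ x i + N) ∧
        ¬ Good D C₀ h P fun i => perMat (h i) (P i) (t i : ℝ)}.ncard : ℕ) : ℝ) ≤
        C * (N : ℝ) ^ (k - 1) * ∑ i, (1 + N / ((x i : ℝ) + N) ^ c) := by
    intro D
    obtain ⟨c, C, hc, hC, hmain⟩ := Pool.Agent.V11273.GH.idc_main k D e r ρ n h fun i δ => fam (hG i) δ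
    refine ⟨c, C, hc, hC, ?_⟩
    intro P hP C₀ x N hN
    set E := {t : Fin k → ℕ | (∀ i, x i < t i ∧ t i ≤ x i + N) ∧
        ¬ Good D C₀ h P fun i => perMat (h i) (P i) (t i : ℝ)} with hE
    have hfin : E.Finite := by
      refine (Set.finite_Iic (fun i : Fin k => x i + N)).subset ?_
      intro t ht i
      exact (ht.1 i).2
    rw [Set.ncard_eq_toFinset_card E hfin]
    refine hmain P hP C₀ x N hN _ fun t ht => ?_
    have ht' : t ∈ E := hfin.mem_toFinset.1 ht
    exact ⟨ht'.1, fun hgood => ht'.2 (good_of hgood)⟩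
  refine ⟨hmain, ?_⟩
  choose c C hc hC hcount using hmain
  obtain ⟨D, hD, hδ⟩ := Pool.Agent.Y123.GN.diag_seq
    (fun D N => C D * k * (1 / (N : ℝ) + 1 / (N : ℝ) ^ (c D))) (by
      intro D
      have h1 : Tendsto (fun N : ℕ => (1 : ℝ) / (N : ℝ)) atTop (nhds 0) := tendsto_one_div_atTop_nhds_zero_nat
      have h2 : Tendsto (fun N : ℕ => (1 : ℝ) / (N : ℝ) ^ (c D)) atTop (nhds 0) := by
        have h3 := (tendsto_rpow_atTop (hc D)).comp tendsto_natCast_atTop_atTop
        have h4 := h3.inv_tendsto_atTop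
        refine h4.congr fun N => ?_
        rw [one_div]
        rfl
      have h5 := (h1.add h2).const_mul (C D * k)
      rw [add_zero, mul_zero] at h5
      exact h5)
  refine ⟨D, _, hD, hδ, ?_⟩
  intro P hP C₀ N hN
  have h1 := hcount (D N) P hP C₀ (fun _ => 0) N hN
  have h2 : {t : Fin k → ℕ | (∀ i, 0 < t i ∧ t i ≤ 0 + N) ∧
      ¬ Good (D N) C₀ h P fun i => perMat (h i) (P i) (t i : ℝ)} = {t : Fin k → ℕ | (∀ i, 1 ≤ t i ∧ t i ≤ N) ∧
      ¬ Good (D N) C₀ h P fun i => perMat (h i) (P i) (t i : ℝ)} := by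
    ext t
    simp only [Set.mem_setOf_eq, zero_add, Nat.lt_iff_add_one_le]
  rw [h2] at h1
  refine h1.trans (le_of_eq ?_)
  have hN0 : (N : ℝ) ≠ 0 := by
    have : N ≠ 0 := by omega
    exact_mod_cast this
  rw [Finset.sum_const, Finset.card_univ, Fintype.card_fin, nsmul_eq_mul, Nat.cast_zero, zero_add]
  rcases Nat.eq_zero_or_pos k with hk | hk
  · subst hk
    simp
  · obtain ⟨q, rfl⟩ : ∃ q, k = q + 1 := ⟨k - 1, by omega⟩
    have h3 : (N : ℝ) ^ (q + 1) = (N : ℝ) ^ q * N := pow_succ _ _
    rw [Nat.add_sub_cancel, h3]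
    have h4 : (1 : ℝ) + N / (N : ℝ) ^ (c (D N)) = N * (1 / (N : ℝ) + 1 / (N : ℝ) ^ (c (D N))) := by
      rw [mul_add, mul_one_div_cancel hN0, mul_one_div]
    rw [h4]
    ring

end Pool.Agent.Results.MP_caab05_ag.AllMonodromyGroups
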