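import Pool.Agent.Results.MP_caab05_ag.LegendreWindows
import Pool.Agent.V11286.NE.Vol

/-!
# Grothendieck's period conjecture up to any given degree for ALL products of Legendre curves in short windows along
# sequences: no exceptional fibres

Let `E_s : y² = x(x-1)(x-s)`. The periods of `E_{1/t_1} × ⋯ × E_{1/t_k}` are generated, up to algebraic numbers, by `π` and the
`3k` numbers `K(1/t_i)`, `E(1/t_i)`, `K(1 - 1/t_i)`, and for general `t` the motivic Galois group has dimension `3k + 1`.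
The starting file `LegendreWindows` deletes a bounded number of (unknown) integers from each window `[n, n + n^c]`. Here there
are no exceptional fibres: let `v_n ≥ 1` be a sequence with exponent of convergence at most `τ`. For all `α > 0` outside a set
of Hausdorff dimension at most `(1 - c + τ) / (1 - θ)`, `θ ≤ c`, and all large `n`, for ALL `k`-tuples of distinct integers
`t_i` in the window `|t_i - α v_n| ≤ v_n ^ θ` the `3k` numbers satisfy no nonzero relation of degree at most `δ` with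
coefficients in a given `ℚ`-space `V` of complex numbers of bounded dimension, with no condition on the size of the
coefficients. If the exponent of convergence is zero (for example `v_n = 2 ^ n`), then the bound is less than one, and almost
every `α` works for all `k`, all degrees, all number fields `K` and all the spaces `K + K π + ⋯ + K π ^ e` at the same time.
-/

set_option autoImplicit false

open MeasureTheory Filter

namespace Pool.Agent.Results.MP_caab05_ag.SequencesWithoutExceptions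

/-- Complete elliptic integral of the first kind, `K(s) = ∫_0^{π/2} dθ / √(1 - s sin² θ)`. -/
noncomputable def K (s : ℝ) : ℝ := ∫ θ in (0 : ℝ)..(Real.pi / 2), 1 / √(1 - s * Real.sin θ ^ 2)

/-- Complete elliptic integral of the second kind, `E(s) = ∫_0^{π/2} √(1 - s sin² θ) dθ`. -/
noncomputable def E (s : ℝ) : ℝ := ∫ θ in (0 : ℝ)..(Real.pi / 2), √(1 - s * Real.sin θ ^ 2)

/-- The `3k` numbers `K(1/t_i)`, `E(1/t_i)`, `K(1 - 1/t_i)`, for `i = 1, …, k`. -/
noncomputable def periods {k : ℕ} (t : Fin k → ℕ) (x : Fin k × Fin 3) : ℂ :=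
  ![(K (1 / (t x.1 : ℝ)) : ℂ), (E (1 / (t x.1 : ℝ)) : ℂ), (K (1 - 1 / (t x.1 : ℝ)) : ℂ)] x.2

/-- Some nonzero polynomial of total degree at most `δ` in `3k` variables with coefficients in `V` vanishes at the `3k`
numbers `K(1/t_i)`, `E(1/t_i)`, `K(1 - 1/t_i)`. -/
def Related {k : ℕ} (δ : ℕ) (V : Submodule ℚ ℂ) (t : Fin k → ℕ) : Prop :=
  ∃ P : MvPolynomial (Fin k × Fin 3) ℂ, P ≠ 0 ∧ P.totalDegree ≤ δ ∧ (∀ s, P.coeff s ∈ V) ∧
    MvPolynomial.aeval (periods t) P = 0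

/-- The exponent of convergence of the sequence `v` is at most `τ`. -/
def ConvergenceExponentLe (v : ℕ → ℝ) (τ : ℝ) : Prop := ∀ s : ℝ, τ < s → Summable (fun n : ℕ => (v n) ^ (-s))

/-- The space `K + K π + ⋯ + K π ^ e` (spanned by the products of the elements of `K` and the powers of `π`). -/
noncomputable def piSpace (K : IntermediateField ℚ ℂ) (e : ℕ) : Submodule ℚ ℂ :=
  ⨆ a : Fin (e + 1), (K.toSubalgebra.toSubmodule).map (LinearMap.mulRight ℚ ((Real.pi : ℂ) ^ (a : ℕ)))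

/-- (1) For all `k`, `δ`, `D` there is `c` with `0 < c < 1` such that for every `ℚ`-subspace `V` of `ℂ` of dimension at most
`D`, every sequence `v_n ≥ 1` with exponent of convergence at most `τ` and every `θ ≤ c`, the following holds for all `α > 0`
outside a set of Hausdorff dimension at most `(1 - c + τ) / (1 - θ)`: for all large `n`, no `k`-tuple of distinct integers
`t_i` with `|t_i - α v_n| ≤ v_n ^ θ` is related.
(2) For every sequence `v_n ≥ 1` with exponent of convergence zero and almost every `α > 0` the following holds. For all `k`,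
`δ`, `e` and all number fields `K` (subfields of `ℂ` of finite degree) there is `θ > 0` such that for all large `n` and ALL
`k`-tuples of distinct integers `t_i` with `|t_i - α v_n| ≤ v_n ^ θ` the numbers `K(1/t_i)`, `E(1/t_i)`, `K(1 - 1/t_i)` satisfy
no nonzero polynomial relation of degree at most `δ` with coefficients in `K + K π + ⋯ + K π ^ e`.
(3) In particular this holds for the windows of length `2 ^ (θ n)` around the numbers `α 2 ^ n`. -/
theorem result :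
    (∀ k δ D : ℕ, ∃ c : ℝ, 0 < c ∧ c < 1 ∧ ∀ V : Submodule ℚ ℂ, Module.Finite ℚ V → Module.finrank ℚ V ≤ D →
      ∀ (v : ℕ → ℝ) (τ θ : ℝ), (∀ n, 1 ≤ v n) → 0 ≤ τ → ConvergenceExponentLe v τ → θ ≤ c →
      ∃ X : Set ℝ, dimH X ≤ ENNReal.ofReal ((1 - c + τ) / (1 - θ)) ∧ ∀ α : ℝ, 0 < α → α ∉ X →
        ∃ n₀ : ℕ, ∀ n : ℕ, n₀ ≤ n → ∀ t : Fin k → ℕ, Function.Injective t →
          (∀ i, |(t i : ℝ) - α * v n| ≤ (v n) ^ θ) → ¬ Related δ V t) ∧
    (∀ v : ℕ → ℝ, (∀ n, 1 ≤ v n) → ConvergenceExponentLe v 0 → ∀ᵐ α : ℝ, 0 < α →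
      ∀ (k δ e : ℕ) (K : IntermediateField ℚ ℂ), FiniteDimensional ℚ K → ∃ θ : ℝ, 0 < θ ∧
        ∃ n₀ : ℕ, ∀ n : ℕ, n₀ ≤ n → ∀ t : Fin k → ℕ, Function.Injective t →
          (∀ i, |(t i : ℝ) - α * v n| ≤ (v n) ^ θ) → ¬ Related δ (piSpace K e) t) ∧
    (∀ᵐ α : ℝ, 0 < α → ∀ (k δ e : ℕ) (K : IntermediateField ℚ ℂ), FiniteDimensional ℚ K → ∃ θ : ℝ, 0 < θ ∧
        ∃ n₀ : ℕ, ∀ n : ℕ, n₀ ≤ n → ∀ t : Fin k → ℕ, Function.Injective t →
          (∀ i, |(t i : ℝ) - α * 2 ^ n| ≤ (2 : ℝ) ^ (θ * n)) → ¬ Related δ (piSpace K e) t) := by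
  have h1 : ∀ k δ D : ℕ, ∃ c : ℝ, 0 < c ∧ c < 1 ∧ ∀ V : Submodule ℚ ℂ, Module.Finite ℚ V → Module.finrank ℚ V ≤ D →
      ∀ (v : ℕ → ℝ) (τ θ : ℝ), (∀ n, 1 ≤ v n) → 0 ≤ τ → ConvergenceExponentLe v τ → θ ≤ c →
      ∃ X : Set ℝ, dimH X ≤ ENNReal.ofReal ((1 - c + τ) / (1 - θ)) ∧ ∀ α : ℝ, 0 < α → α ∉ X →
        ∃ n₀ : ℕ, ∀ n : ℕ, n₀ ≤ n → ∀ t : Fin k → ℕ, Function.Injective t →
          (∀ i, |(t i : ℝ) - α * v n| ≤ (v n) ^ θ) → ¬ Related δ V t := by
    intro k δ D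
    obtain ⟨M, c, hc, h⟩ := Pool.Agent.Results.MP_caab05_ag.LegendreWindows.result k δ D
    set c' : ℝ := min c 1 with hc'
    have hc'0 : 0 < c' := lt_min hc one_pos
    have hc'1 : c' ≤ 1 := min_le_right _ _
    refine ⟨c' / 2, by positivity, by linarith, fun V hV hVD v τ θ hv hτ hvτ hθ => ?_⟩
    choose! S hS using fun m (hm : 1 ≤ m) => h V hV hVD m hm
    obtain ⟨X, hX, hX2⟩ := Pool.Agent.V11286.NE.no_exc M (c := c') (b := c' / 2) (by positivity) (by linarith) hc'1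
      (fun m => if 1 ≤ m then S m else ∅) (fun m => by
        by_cases hm : 1 ≤ m
        · simp only [hm, if_true]
          exact (hS m hm).1
        · simp [hm]) hv hτ hvτ hθ
    refine ⟨X, hX, fun α hα hαX => ?_⟩
    obtain ⟨n₀, hn₀⟩ := hX2 α hα hαX 1
    refine ⟨n₀, fun n hn t ht hti => ?_⟩
    obtain ⟨m, hm, hmt⟩ := hn₀ n hn
    refine (hS m hm).2 t ht fun i => ?_
    obtain ⟨a1, a2, a3⟩ := hmt (t i) (hti i)
    rw [if_pos hm] at a3
    have hm1 : (1 : ℝ) ≤ m := by exact_mod_cast hm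
    have h5 : (m : ℝ) ^ c' ≤ (m : ℝ) ^ c := Real.rpow_le_rpow_of_exponent_le hm1 (min_le_left _ _)
    exact ⟨a1, by linarith, a3⟩
  have h2 : ∀ v : ℕ → ℝ, (∀ n, 1 ≤ v n) → ConvergenceExponentLe v 0 → ∀ᵐ α : ℝ, 0 < α →
      ∀ (k δ e : ℕ) (K : IntermediateField ℚ ℂ), FiniteDimensional ℚ K → ∃ θ : ℝ, 0 < θ ∧
        ∃ n₀ : ℕ, ∀ n : ℕ, n₀ ≤ n → ∀ t : Fin k → ℕ, Function.Injective t →
          (∀ i, |(t i : ℝ) - α * v n| ≤ (v n) ^ θ) → ¬ Related δ (piSpace K e) t := by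
    intro v hv hv0
    have h3 : ∀ (k δ e : ℕ), ∀ᵐ α : ℝ, ∀ K ∈ {K : IntermediateField ℚ ℂ | FiniteDimensional ℚ K}, 0 < α →
        ∃ θ : ℝ, 0 < θ ∧ ∃ n₀ : ℕ, ∀ n : ℕ, n₀ ≤ n → ∀ t : Fin k → ℕ, Function.Injective t →
          (∀ i, |(t i : ℝ) - α * v n| ≤ (v n) ^ θ) → ¬ Related δ (piSpace K e) t := by
      intro k δ e
      rw [ae_ball_iff Pool.Agent.V11286.NE.countable_fields]
      intro K hK
      have hK' : FiniteDimensional ℚ K := hK
      have hfin : Module.Finite ℚ (piSpace K e) := Pool.Agent.V11286.NE.piSpace_finite K e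
      obtain ⟨c, hc0, hc1, h4⟩ := h1 k δ (Module.finrank ℚ (piSpace K e))
      obtain ⟨X, hX, hX2⟩ := h4 (piSpace K e) hfin le_rfl v 0 (c / 2) hv le_rfl hv0 (by linarith)
      have hX0 : volume X = 0 := Pool.Agent.V11286.NE.vol_zero (Pool.Agent.V11286.NE.ratio_lt hc0 hc1) hX
      have hae : ∀ᵐ α : ℝ, α ∉ X := measure_eq_zero_iff_ae_notMem.1 hX0
      filter_upwards [hae] with α hα hα0
      exact ⟨c / 2, by positivity, hX2 α hα0 hα⟩
    have h5 : ∀ᵐ α : ℝ, ∀ (k δ e : ℕ), ∀ K ∈ {K : IntermediateField ℚ ℂ | FiniteDimensional ℚ K}, 0 < α →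
        ∃ θ : ℝ, 0 < θ ∧ ∃ n₀ : ℕ, ∀ n : ℕ, n₀ ≤ n → ∀ t : Fin k → ℕ, Function.Injective t →
          (∀ i, |(t i : ℝ) - α * v n| ≤ (v n) ^ θ) → ¬ Related δ (piSpace K e) t := by
      rw [ae_all_iff]
      intro k
      rw [ae_all_iff]
      intro δ
      rw [ae_all_iff]
      intro e
      exact h3 k δ e
    filter_upwards [h5] with α h6 hα k δ e K hK
    exact h6 k δ e K hK hα
  refine ⟨h1, h2, ?_⟩
  have h3 := h2 (fun n => (2 : ℝ) ^ n) (fun n => one_le_pow₀ (by norm_num)) Pool.Agent.V11286.NE.expLe_two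
  filter_upwards [h3] with α h4 hα k δ e K hK
  obtain ⟨θ, hθ, n₀, h5⟩ := h4 hα k δ e K hK
  refine ⟨θ, hθ, n₀, fun n hn t ht hti => h5 n hn t ht fun i => ?_⟩
  refine (hti i).trans (le_of_eq ?_)
  show (2 : ℝ) ^ (θ * n) = ((2 : ℝ) ^ n) ^ θ
  rw [← Real.rpow_natCast, ← Real.rpow_mul (by norm_num), mul_comm]

end Pool.Agent.Results.MP_caab05_ag.SequencesWithoutExceptions
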