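import Pool.Agent.Results.MP_caab05_ag.AllMonodromyGroups
import Pool.Agent.Helper203.Win.Fam
import Pool.Agent.H107.MetricPi

/-!
# The period conjecture in bounded degree, at all heights, for ALL tuples of fibres of families with any monodromy groups in
# windows around the multiples of almost every direction

`h_i`, `P_i`, `Gal(P_i)`, `M_0`, `C₀` are as in the theorem `AllMonodromyGroups` (this problem): `P_i` is the period matrix of
a family of varieties over a part of the line, near a rational point which may be a point of degeneration, `Gal(P_i)` its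
differential Galois group, the Zariski closure of the monodromy group, and `C₀` the period matrix of a fixed motive.
`AllMonodromyGroups` shows, for all tuples of integers `t` outside of a set with a power saving, that all polynomials of
degree at most `D` over all number fields of degree at most `D` which vanish at the period matrix of the sum of `M_0` and of
the fibres at `1 / t_i` vanish on its orbit under `1 × ∏_i Gal(P_i)°`. The exceptional tuples are unknown, and every window
might contain some of them.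

**Theorem.** There is `c > 0` such that for all sequences `v_m ≥ 1` with exponent of convergence at most `τ` and all `θ < 1`
the following holds for all directions `α ∈ ℝ^k` outside of a set of Hausdorff dimension at most `(k - c + τ) / (1 - θ)`: for
all large `m` there are no exceptional tuples `t` in the window `|t_i - α_i v_m| ≤ v_m ^ θ`, `1 ≤ i ≤ k`. If the exponent of
convergence is zero, for example `v_m = b ^ m`, and `θ` is small, then this holds for almost all `α` and for all `D` at once.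
-/

set_option autoImplicit false

open PowerSeries Filter MeasureTheory
open Pool.Agent.Results.MP_caab05_ag.AllMonodromyGroups Pool.Agent.Helper203.Win.Fam

namespace Pool.Agent.Results.MP_caab05_ag.WindowsOfFibres

/-- for large `m` all the tuples of positive integers in the window with centre `α v_m` and side `2 v_m ^ θ` are good: all
relations of degree at most `D` over all number fields of degree at most `D` of the period matrix hold on the orbit of the
identity components -/
def AllGoodInWindows {k r : ℕ} {ρ n : Fin k → ℕ} (D : ℕ) (C₀ : Matrix (Fin r) (Fin r) ℂ)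
    (h : ∀ i, Fin (ρ i) → PowerSeries ℚ) (P : ∀ i, Fin (n i) → Fin (n i) → MvPolynomial (Option (Fin (ρ i))) ℂ)
    (v : ℕ → ℝ) (θ : ℝ) (α : Fin k → ℝ) : Prop :=
  ∃ m₀ : ℕ, ∀ m : ℕ, m₀ ≤ m → ∀ t : Fin k → ℕ, (∀ i, 1 ≤ t i) → (∀ i, |(t i : ℝ) - α i * v m| ≤ (v m) ^ θ) →
    Good D C₀ h P fun i => perMat (h i) (P i) (t i : ℝ)

/-- (1) For every `D` there is `c` with `0 < c ≤ 1` such that for all `P` (with entries of degree at most `e`), `C₀`, all
sequences `v_m ≥ 1` with exponent of convergence at most `τ` and `θ < 1`, for all `α ∈ ℝ^k` outside a set of dimension at most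
`(k - c + τ) / (1 - θ)`, all the tuples in the windows of size `v_m ^ θ` around `α v_m`, `m` large, are good. (2) There are
positive numbers `θ_D` such that for all `P`, `C₀` and all `v` with exponent of convergence zero, for almost all `α` and all
`D` all the tuples in the windows of size `v_m ^ θ_D`, `m` large, are good. -/
theorem result (k e r : ℕ) (hk : 1 ≤ k) (ρ n : Fin k → ℕ) (T : Fin k → Polynomial ℤ)
    (A : ∀ i, Fin (ρ i) → Fin (ρ i) → Polynomial ℤ) (h : ∀ i, Fin (ρ i) → PowerSeries ℚ)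
    (hG : ∀ i, GFamily (T i) (A i) (h i)) :
    (∀ D : ℕ, ∃ c : ℝ, 0 < c ∧ c ≤ 1 ∧ ∀ P : ∀ i, Fin (n i) → Fin (n i) → MvPolynomial (Option (Fin (ρ i))) ℂ,
      (∀ i a b, (P i a b).totalDegree ≤ e) → ∀ C₀ : Matrix (Fin r) (Fin r) ℂ,
      ∀ (v : ℕ → ℝ) (τ θ : ℝ), (∀ m, 1 ≤ v m) → 0 ≤ τ → ExpLe v τ → θ < 1 →
      ∃ Z : Set (Fin k → ℝ), dimH Z ≤ ENNReal.ofReal ((k - c + τ) / (1 - θ)) ∧
        ∀ α ∉ Z, AllGoodInWindows D C₀ h P v θ α) ∧
    (∃ θ : ℕ → ℝ, (∀ D, 0 < θ D) ∧ ∀ P : ∀ i, Fin (n i) → Fin (n i) → MvPolynomial (Option (Fin (ρ i))) ℂ,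
      (∀ i a b, (P i a b).totalDegree ≤ e) → ∀ C₀ : Matrix (Fin r) (Fin r) ℂ,
      ∀ v : ℕ → ℝ, (∀ m, 1 ≤ v m) → ExpLe v 0 → ∀ᵐ α : Fin k → ℝ, ∀ D, AllGoodInWindows D C₀ h P v (θ D) α) ∧
    (∀ b : ℝ, 1 < b → ExpLe (fun m : ℕ => b ^ m) 0) ∧ (∀ a : ℝ, 0 < a → ExpLe (fun m : ℕ => ((m : ℝ) + 1) ^ a) (1 / a)) := by
  classical
  have h1 : ∀ D : ℕ, ∃ c : ℝ, 0 < c ∧ c ≤ 1 ∧ ∀ P : ∀ i, Fin (n i) → Fin (n i) → MvPolynomial (Option (Fin (ρ i))) ℂ,
      (∀ i a b, (P i a b).totalDegree ≤ e) → ∀ C₀ : Matrix (Fin r) (Fin r) ℂ,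
      ∀ (v : ℕ → ℝ) (τ θ : ℝ), (∀ m, 1 ≤ v m) → 0 ≤ τ → ExpLe v τ → θ < 1 →
      ∃ Z : Set (Fin k → ℝ), dimH Z ≤ ENNReal.ofReal ((k - c + τ) / (1 - θ)) ∧
        ∀ α ∉ Z, AllGoodInWindows D C₀ h P v θ α := by
    intro D
    obtain ⟨c, C, hc, hC, hmain⟩ := (Pool.Agent.Results.MP_caab05_ag.AllMonodromyGroups.result k e r ρ n T A h hG).1 D
    refine ⟨min c 1, lt_min hc one_pos, min_le_right _ _, fun P hP C₀ v τ θ hv hτ hvτ hθ => ?_⟩
    have hc1 : min c 1 ≤ 1 := min_le_right _ _
    have hk1 : (1 : ℝ) ≤ k := by exact_mod_cast hk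
    have hs : (0 : ℝ) ≤ (k : ℝ) - min c 1 := by linarith
    set Bad : (Fin k → ℤ) → Prop := fun x => (∀ i, 1 ≤ x i) ∧
      ¬ Good D C₀ h P fun i => perMat (h i) (P i) (((x i).toNat : ℕ) : ℝ) with hBad
    have hcount : CountLe Bad ((k : ℝ) - min c 1) := by
      intro ε hε
      refine ⟨2 * C * k, 1, fun H hH => ?_⟩
      have hHr : (1 : ℝ) ≤ H := by exact_mod_cast hH
      have hH0 : (0 : ℝ) < H := by linarith
      have hb := hmain P hP C₀ (fun _ => 0) H hH
      set S : Set (Fin k → ℕ) := {t : Fin k → ℕ | (∀ i, 0 < t i ∧ t i ≤ 0 + H) ∧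
        ¬ Good D C₀ h P fun i => perMat (h i) (P i) (t i : ℝ)} with hS
      have hSfin : S.Finite := by
        refine (Set.finite_Iic (fun _ : Fin k => 0 + H)).subset ?_
        intro t ht i
        exact (ht.1 i).2
      have h2 : {x : Fin k → ℤ | (∀ i, |x i| ≤ (H : ℤ)) ∧ Bad x}.ncard ≤ S.ncard := by
        refine Set.ncard_le_ncard_of_injOn (fun x i => (x i).toNat) ?_ ?_ hSfin
        · rintro x ⟨hx1, hx2, hx3⟩
          refine ⟨fun i => ?_, hx3⟩
          have g1 := hx2 i
          have g2 := (abs_le.1 (hx1 i)).2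
          constructor
          · show 0 < (x i).toNat
            omega
          · show (x i).toNat ≤ 0 + H
            omega
        · rintro x ⟨_, hx2, _⟩ y ⟨_, hy2, _⟩ hxy
          funext i
          have g1 := hx2 i
          have g2 := hy2 i
          have g3 : (x i).toNat = (y i).toNat := congrFun hxy i
          omega
      have h3 : (({x : Fin k → ℤ | (∀ i, |x i| ≤ (H : ℤ)) ∧ Bad x}.ncard : ℕ) : ℝ) ≤ (S.ncard : ℝ) := by
        exact_mod_cast h2
      refine h3.trans (hb.trans ?_)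
      have h4 : ∀ i : Fin k, (1 + (H : ℝ) / ((((fun _ : Fin k => 0) i : ℕ) : ℝ) + H) ^ c) ≤ 2 * (H : ℝ) ^ (1 - min c 1) := by
        intro i
        have e1 : (1 : ℝ) ≤ (H : ℝ) ^ (1 - min c 1) := Real.one_le_rpow hHr (by linarith)
        have e2 : (H : ℝ) / ((((fun _ : Fin k => 0) i : ℕ) : ℝ) + H) ^ c ≤ (H : ℝ) ^ (1 - min c 1) := by
          have e3 : ((((fun _ : Fin k => 0) i : ℕ) : ℝ) + H) = (H : ℝ) := by simp
          rw [e3, div_eq_mul_inv, ← Real.rpow_neg hH0.le]
          calc (H : ℝ) * (H : ℝ) ^ (-c) = (H : ℝ) ^ (1 - c) := by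
                rw [sub_eq_add_neg, Real.rpow_add hH0, Real.rpow_one]
            _ ≤ (H : ℝ) ^ (1 - min c 1) :=
                Real.rpow_le_rpow_of_exponent_le hHr (by linarith [min_le_left c 1])
        linarith
      have h5 : ∑ i : Fin k, (1 + (H : ℝ) / ((((fun _ : Fin k => 0) i : ℕ) : ℝ) + H) ^ c) ≤
          k * (2 * (H : ℝ) ^ (1 - min c 1)) := by
        refine (Finset.sum_le_sum fun i _ => h4 i).trans (le_of_eq ?_)
        rw [Finset.sum_const, Finset.card_univ, Fintype.card_fin, nsmul_eq_mul]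
      calc C * (H : ℝ) ^ (k - 1) * ∑ i : Fin k, (1 + (H : ℝ) / ((((fun _ : Fin k => 0) i : ℕ) : ℝ) + H) ^ c)
          ≤ C * (H : ℝ) ^ (k - 1) * (k * (2 * (H : ℝ) ^ (1 - min c 1))) :=
            mul_le_mul_of_nonneg_left h5 (by positivity)
        _ = 2 * C * k * ((H : ℝ) ^ ((k : ℝ) - 1) * (H : ℝ) ^ (1 - min c 1)) := by
            have e4 : (H : ℝ) ^ (k - 1) = (H : ℝ) ^ ((k : ℝ) - 1) := by
              rw [← Real.rpow_natCast, Nat.cast_sub hk]
              simp
            rw [e4]
            ring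
        _ = 2 * C * k * (H : ℝ) ^ ((k : ℝ) - min c 1) := by
            rw [← Real.rpow_add hH0]
            congr 2
            ring
        _ ≤ 2 * C * k * (H : ℝ) ^ ((k : ℝ) - min c 1 + ε) := by
            refine mul_le_mul_of_nonneg_left ?_ (by positivity)
            exact Real.rpow_le_rpow_of_exponent_le hHr (by linarith)
    obtain ⟨Z, hZ, hwin⟩ := windows (J := Unit) (fun _ => Bad) hs hv hτ hvτ hθ
    refine ⟨Z, hZ, fun α hα => ?_⟩
    obtain ⟨m₀, hm₀⟩ := hwin α hα () hcount
    refine ⟨m₀, fun m hm t ht1 ht => ?_⟩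
    by_contra hbad
    refine hm₀ m hm (fun i => (t i : ℤ)) (fun j => ?_) ⟨fun i => ?_, ?_⟩
    · have := ht j
      simpa using this
    · have h6 := ht1 i
      show (1 : ℤ) ≤ (t i : ℤ)
      exact_mod_cast h6
    · simpa using hbad
  refine ⟨h1, ?_, Pool.Agent.V35.WM.expLe_geom, Pool.Agent.V35.WM.expLe_pow⟩
  choose c hc0 hc1 hc using h1
  have hk0 : (0 : ℝ) < k := by exact_mod_cast hk
  refine ⟨fun D => c D / (2 * k), fun D => div_pos (hc0 D) (by positivity), fun P hP C₀ v hv hv0 => ?_⟩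
  rw [ae_all_iff]
  intro D
  have hk1 : (1 : ℝ) ≤ k := by exact_mod_cast hk
  have hθ : c D / (2 * k) < 1 := by
    rw [div_lt_one (by positivity)]
    have := hc1 D
    linarith
  obtain ⟨Z, hZ, hwin⟩ := hc D P hP C₀ v 0 (c D / (2 * k)) hv le_rfl hv0 hθ
  have : Nonempty (Fin k) := ⟨⟨0, by omega⟩⟩
  have hnull : volume Z = 0 := by
    refine Pool.Agent.H107.ME.null_of_dimH_lt (hZ.trans_lt ?_)
    have g1 : ((k : ℝ) - c D + 0) / (1 - c D / (2 * k)) < k := by
      rw [div_lt_iff₀ (by linarith)]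
      have g2 : (k : ℝ) * (1 - c D / (2 * k)) = k - c D / 2 := by
        field_simp
      rw [g2]
      have := hc0 D
      linarith
    rw [Fintype.card_fin]
    calc ENNReal.ofReal (((k : ℝ) - c D + 0) / (1 - c D / (2 * k))) < ENNReal.ofReal (k : ℝ) :=
          (ENNReal.ofReal_lt_ofReal_iff hk0).2 g1
      _ = (k : ENNReal) := ENNReal.ofReal_natCast k
  filter_upwards [measure_eq_zero_iff_ae_notMem.1 hnull] with α hα
  exact hwin α hα

end Pool.Agent.Results.MP_caab05_ag.WindowsOfFibres
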